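import Pool.Agent.H492.BF.F

/-!
Füredi's conjecture on weighted matchings in linear hypergraphs, under a local condition on the
numbers of edges of given sizes through the vertices of an edge.
-/

set_option autoImplicit false

/-- Let `H` be a finite linear hypergraph with nonnegative edge weights whose 2-section has maximum
degree at most `D`.  Suppose that every edge `E` with `k ≥ 3` elements satisfies, for every `x ∈ E`,
`2 ∑_{v ∈ E} #{F ∋ v, |F| > k} + ∑_{v ∈ E} #{F ∋ v, |F| = k} + #{F ∋ x, |F| = k} ≤ 2 D + k + 1`,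
and that either all two-element edges `E` satisfy, for every `x ∈ E`,
`∑_{v ∈ E} #{F ∋ v, |F| > 2} + #{F ∋ x, |F| = 2} ≤ D`, or all of them satisfy the first inequality
(with `k = 2`).  Then some matching has weight at least the total weight divided by `D + 1`. -/
theorem Pool.Agent.Results.MP_4c2c9c_co.SizewiseDegreeCondition.result
    (V : Type) [Fintype V] [DecidableEq V] (H : Finset (Finset V)) (w : Finset V → ℝ) (D : ℕ)
    (hne : ∀ E ∈ H, E.Nonempty)
    (hlin : ∀ E ∈ H, ∀ F ∈ H, E ≠ F → (E ∩ F).card ≤ 1)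
    (hw : ∀ E ∈ H, 0 ≤ w E)
    (hdeg : ∀ v : V, {u : V | u ≠ v ∧ ∃ E ∈ H, u ∈ E ∧ v ∈ E}.ncard ≤ D)
    (hloc3 : ∀ E ∈ H, 3 ≤ E.card → ∀ x ∈ E,
      2 * (∑ v ∈ E, (H.filter (fun F => v ∈ F ∧ E.card < F.card)).card) +
        (∑ v ∈ E, (H.filter (fun F => v ∈ F ∧ F.card = E.card)).card) +
          (H.filter (fun F => x ∈ F ∧ F.card = E.card)).card ≤ 2 * D + E.card + 1)
    (hloc2 : (∀ E ∈ H, E.card = 2 → ∀ x ∈ E,
        (∑ v ∈ E, (H.filter (fun F => v ∈ F ∧ 2 < F.card)).card) +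
          (H.filter (fun F => x ∈ F ∧ F.card = 2)).card ≤ D) ∨
      (∀ E ∈ H, E.card = 2 → ∀ x ∈ E,
        2 * (∑ v ∈ E, (H.filter (fun F => v ∈ F ∧ 2 < F.card)).card) +
          (∑ v ∈ E, (H.filter (fun F => v ∈ F ∧ F.card = 2)).card) +
            (H.filter (fun F => x ∈ F ∧ F.card = 2)).card ≤ 2 * D + 3)) :
    ∃ M : Finset (Finset V), M ⊆ H ∧ (∀ E ∈ M, ∀ F ∈ M, E ≠ F → Disjoint E F) ∧
      (∑ E ∈ H, w E) / ((D : ℝ) + 1) ≤ ∑ E ∈ M, w E := by
  have key : ∃ M ⊆ H, (∀ E ∈ M, ∀ F ∈ M, E ≠ F → Disjoint E F) ∧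
      ∑ E ∈ H, w E ≤ ((D : ℝ) + 1) * ∑ E ∈ M, w E := by
    rcases hloc2 with h | h
    · exact Pool.Agent.H492.BF.partR (H := H) hlin (D := D) hdeg hne hloc3 h w hw
    · refine Pool.Agent.H492.BF.partG (H := H) hlin (D := D) hdeg ?_ w
      intro E hE h2 x hx
      rcases Nat.lt_or_ge 2 E.card with h3 | h3
      · exact hloc3 E hE h3 x hx
      · have h4 : E.card = 2 := le_antisymm h3 h2
        have h5 := h E hE h4 x hx
        unfold Pool.Agent.H492.BF.rgt Pool.Agent.H492.BF.rho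
        rw [h4]
        exact h5
  obtain ⟨M, h1, h2, h3⟩ := key
  refine ⟨M, h1, h2, ?_⟩
  rw [div_le_iff₀ (by positivity)]
  linarith
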