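import Pool.Agent.H492.BF.C

/-!
Weighted matchings in linear hypergraphs: an explicit bound for all linear hypergraphs.
-/

set_option autoImplicit false

/-- Let `k ≥ 2` and let `H` be a finite linear hypergraph with nonnegative edge weights, all of
whose edges have at most one or at least `k` elements, and whose 2-section has maximum degree at
most `D`.  Then some matching has weight at least the total weight divided by
`max (D + 1, D + (D / (k - 1) - (k - 1)²) / k)`; for `k = 2` there is no restriction on the edges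
and the second number is `(3 D - 1) / 2`. -/
theorem Pool.Agent.Results.MP_4c2c9c_co.ThreeHalvesBound.result
    (V : Type) [Fintype V] [DecidableEq V] (H : Finset (Finset V)) (w : Finset V → ℝ) (D k : ℕ)
    (hk : 2 ≤ k)
    (hlin : ∀ E ∈ H, ∀ F ∈ H, E ≠ F → (E ∩ F).card ≤ 1)
    (_hw : ∀ E ∈ H, 0 ≤ w E)
    (hdeg : ∀ v : V, {u : V | u ≠ v ∧ ∃ E ∈ H, u ∈ E ∧ v ∈ E}.ncard ≤ D)
    (hsize : ∀ E ∈ H, E.card ≤ 1 ∨ k ≤ E.card) :
    ∃ M : Finset (Finset V), M ⊆ H ∧ (∀ E ∈ M, ∀ F ∈ M, E ≠ F → Disjoint E F) ∧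
      (∑ E ∈ H, w E) /
        max ((D : ℝ) + 1) (D + ((D : ℝ) / ((k : ℝ) - 1) - ((k : ℝ) - 1) ^ 2) / k) ≤
          ∑ E ∈ M, w E := by
  obtain ⟨M, h1, h2, h3⟩ := Pool.Agent.H492.BF.partB (H := H) hlin (D := D) hdeg k hk hsize w
  refine ⟨M, h1, h2, ?_⟩
  rw [div_le_iff₀ (lt_of_lt_of_le (by positivity) (le_max_left _ _))]
  linarith
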